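import Pool.Agent.Helper69.UW.Defs
import Pool.Agent.Helper93.UG.ToMeas

/-!
# UW-Q0: from the weight to the measure in `[T, 2T]`

The resonator is at most `exp ((1 + 100 δ) K0) VV` in square off a set of small weight, so a set of weight `VV/c` has
Poisson measure at least `exp (-(1 + 100 δ) K0)/(2 c)`.
-/

set_option autoImplicit false
open MeasureTheory Set Filter Topology
open Pool.Agent.Helper57.Zeta Pool.Agent.Helper57.LH Pool.Agent.Helper57.ED Pool.Agent.Helper54.LG
open Pool.Agent.Helper69.UG (NR WW)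
open Pool.Agent.Helper69.UW
open Pool.Agent.Helper93.UG (mu_shift vol_ge)

namespace Pool.Agent.Helper94.UW

lemma one_le_VV {δ T c m : ℝ} (hT : 1 ≤ T) (v : ℝ) : 1 ≤ VV δ T c m v := by
  unfold VV
  have h0 : 1 ≤ T ^ (1 / 8 : ℝ) := Real.one_le_rpow hT (by norm_num)
  have h1 : 1 ≤ NR T := by
    unfold NR
    exact Nat.le_floor (by exact_mod_cast h0)
  have h2 : (1:ℕ) ∈ Finset.Icc 1 (NR T) := Finset.mem_Icc.mpr ⟨le_rfl, h1⟩
  have h3 : rr δ T c m v 1 = 1 := by
    unfold rr
    rw [if_pos ⟨squarefree_one, by simp, by simp⟩]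
    simp
  have h4 := Finset.single_le_sum (f := fun n : ℕ => rr δ T c m v n ^ 2 / (n : ℝ)) (fun i _ => by positivity) h2
  simp only [h3] at h4
  simpa using h4

lemma RR_cont (δ T c m v : ℝ) : Continuous (RR δ T c m v) := by
  unfold RR
  apply continuous_finsetSum
  intro n hn
  have hn1 : (n : ℂ) ≠ 0 := by
    have := (Finset.mem_Icc.mp hn).1
    exact_mod_cast (by omega : n ≠ 0)
  apply continuous_const.mul
  apply Continuous.const_cpow (by fun_prop)
  left; exact hn1

lemma RR_bdd (δ T c m v : ℝ) (t : ℝ) : ‖RR δ T c m v t‖ ≤ ∑ n ∈ Finset.Icc 1 (NR T), |rr δ T c m v n| := by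
  unfold RR
  refine (norm_sum_le _ _).trans (Finset.sum_le_sum fun n hn => ?_)
  have hn1 : 1 ≤ n := (Finset.mem_Icc.mp hn).1
  rw [norm_mul, Complex.norm_real, Real.norm_eq_abs, Complex.norm_natCast_cpow_of_pos (by omega)]
  have h1 : (n : ℝ) ^ ((-((1 / 2 : ℂ) + (t : ℂ) * Complex.I)).re) ≤ 1 := by
    apply Real.rpow_le_one_of_one_le_of_nonpos (by exact_mod_cast hn1)
    simp
  calc |rr δ T c m v n| * (n : ℝ) ^ ((-((1 / 2 : ℂ) + (t : ℂ) * Complex.I)).re) ≤ |rr δ T c m v n| * 1 := by gcongr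
    _ = _ := mul_one _

lemma PW_cont {W : ℝ} (hW : 0 < W) (τ : ℝ) : Continuous fun t => PW W (t - τ) := by
  unfold PW
  have := Real.pi_pos
  apply Continuous.div continuous_const (by fun_prop)
  intro t
  positivity

lemma wt_int {δ T c m v τ : ℝ} (hT : 0 < T) : Integrable (wt δ T c m v τ) := by
  have hW : 0 < WW T := by unfold WW; positivity
  have hPi : Integrable (fun t => PW (WW T) (t - τ)) := (integral_PW hW).1.comp_sub_right τ
  set M := ∑ n ∈ Finset.Icc 1 (NR T), |rr δ T c m v n| with hM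
  have hM0 : 0 ≤ M := Finset.sum_nonneg fun _ _ => abs_nonneg _
  refine (hPi.const_mul (M ^ 2)).mono' ?_ (Eventually.of_forall fun t => ?_)
  · apply Continuous.aestronglyMeasurable
    unfold wt
    exact (PW_cont hW τ).mul ((RR_cont δ T c m v).norm.pow 2)
  · have hp := PW_pos hW (t - τ)
    have h1 := RR_bdd δ T c m v t
    unfold wt
    rw [Real.norm_of_nonneg (by positivity), mul_comm]
    apply mul_le_mul_of_nonneg_right _ hp.le
    exact pow_le_pow_left₀ (norm_nonneg _) h1 2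

/-- the measure of a set from its weight. -/
lemma mu_ge {δ T c m v τ Λ : ℝ} (hT : 1 ≤ T) (hc : 3 ≤ c) (hΛ : 0 < Λ) {S : Set ℝ} (hS : MeasurableSet S)
    (h4 : ∫ t in {t : ℝ | Λ * VV δ T c m v < ‖RR δ T c m v t‖ ^ 2}, wt δ T c m v τ t ≤ VV δ T c m v / c ^ 2)
    (h : VV δ T c m v / c ≤ ∫ t in S, wt δ T c m v τ t) :
    1 / (2 * c * Λ) ≤ (mu (WW T) τ S).toReal := by
  have hV := one_le_VV (δ := δ) (c := c) (m := m) hT v
  have hV0 : 0 < VV δ T c m v := by linarith
  have hW : 0 < WW T := by unfold WW; positivity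
  have hPi : Integrable (fun t => PW (WW T) (t - τ)) := (integral_PW hW).1.comp_sub_right τ
  have hwi : Integrable (wt δ T c m v τ) := wt_int (by linarith)
  have hmu : (mu (WW T) τ S).toReal = ∫ t in S, PW (WW T) (t - τ) := by
    unfold mu
    rw [withDensity_apply _ hS, ← ofReal_integral_eq_lintegral_ofReal hPi.integrableOn
      (Eventually.of_forall fun t => (PW_pos hW _).le)]
    rw [ENNReal.toReal_ofReal]
    exact setIntegral_nonneg hS fun t _ => (PW_pos hW _).le
  set E : Set ℝ := {t : ℝ | Λ * VV δ T c m v < ‖RR δ T c m v t‖ ^ 2} with hE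
  have hEm : MeasurableSet E := by
    have hcont : Continuous fun t => ‖RR δ T c m v t‖ ^ 2 := (RR_cont δ T c m v).norm.pow 2
    exact (isOpen_lt continuous_const hcont).measurableSet
  have hw0 : ∀ t, 0 ≤ wt δ T c m v τ t := fun t => by
    unfold wt
    exact mul_nonneg (PW_pos hW _).le (by positivity)
  have h5 : ∫ t in S, wt δ T c m v τ t = (∫ t in S ∩ E, wt δ T c m v τ t) + ∫ t in S \ E, wt δ T c m v τ t :=
    (integral_inter_add_sdiff hEm hwi.integrableOn).symm
  have h6 : ∫ t in S ∩ E, wt δ T c m v τ t ≤ VV δ T c m v / c ^ 2 := by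
    refine le_trans ?_ h4
    exact setIntegral_mono_set hwi.integrableOn (Eventually.of_forall fun t => hw0 t)
      (LE.le.eventuallyLE inter_subset_right)
  have h7 : ∫ t in S \ E, wt δ T c m v τ t ≤ Λ * VV δ T c m v * (mu (WW T) τ S).toReal := by
    rw [hmu, ← integral_const_mul]
    have hi : Integrable (fun t => Λ * VV δ T c m v * PW (WW T) (t - τ)) := hPi.const_mul _
    refine (setIntegral_mono_on hwi.integrableOn hi.integrableOn (hS.diff hEm) fun t ht => ?_).trans
      (setIntegral_mono_set hi.integrableOn (Eventually.of_forall fun t => ?_) (LE.le.eventuallyLE sdiff_subset))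
    · have h8 : ‖RR δ T c m v t‖ ^ 2 ≤ Λ * VV δ T c m v := by
        have := ht.2
        rw [hE, mem_ofPred_eq, not_lt] at this
        exact this
      unfold wt
      rw [mul_comm]
      exact mul_le_mul_of_nonneg_right h8 (PW_pos hW _).le
    · have := PW_pos hW (t - τ)
      show 0 ≤ Λ * VV δ T c m v * PW (WW T) (t - τ)
      positivity
  have hc0 : 0 < c := by linarith
  have h9 : VV δ T c m v / c - VV δ T c m v / c ^ 2 ≤ Λ * VV δ T c m v * (mu (WW T) τ S).toReal := by linarith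
  have h10 : VV δ T c m v / (2 * c) ≤ VV δ T c m v / c - VV δ T c m v / c ^ 2 := by
    have e1 : VV δ T c m v / c - VV δ T c m v / c ^ 2 - VV δ T c m v / (2 * c) = VV δ T c m v * (c - 2) / (2 * c ^ 2) := by
      field_simp
      ring
    have e2 : 0 ≤ VV δ T c m v * (c - 2) / (2 * c ^ 2) := by
      have : 0 ≤ c - 2 := by linarith
      positivity
    linarith
  have h11 := h10.trans h9
  rw [div_le_iff₀ (by positivity)] at h11 ⊢
  have h12 : VV δ T c m v * 1 ≤ VV δ T c m v * ((mu (WW T) τ S).toReal * (2 * c * Λ)) := by linarith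
  exact le_of_mul_le_mul_left h12 hV0

/-- Q0, from T4. -/
theorem to_meas_of {δ : ℝ} (hδ : 0 < δ) (hδ1 : δ ≤ 1 / 32)
    (hT4 : ∃ c0 T0 : ℝ, ∀ T c m v : ℝ, T0 ≤ T → Adm c0 T c m → |v| = vv δ c m →
      ∀ τ : ℝ, ∫ t in {t : ℝ | Real.exp ((1 + 100 * δ) * K0 c m) * VV δ T c m v < ‖RR δ T c m v t‖ ^ 2}, wt δ T c m v τ t ≤
        VV δ T c m v / c ^ 2) :
    ∃ c0 T0 : ℝ, ∀ T c m v : ℝ, T0 ≤ T → Adm c0 T c m → |v| = vv δ c m →
    ∀ G : Set ℝ, MeasurableSet G →
    (∀ τ, 5 / 4 * T ≤ τ → τ ≤ 7 / 4 * T → ∃ s : ℝ, |s| ≤ √T ∧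
      VV δ T c m v / c ≤ ∫ t in {t : ℝ | t + s ∈ G}, wt δ T c m v τ t) →
    ENNReal.ofReal (Real.exp (-((1 + 110 * δ) * K0 c m)) * T) ≤ volume (G ∩ Icc T (2 * T)) := by
  obtain ⟨c1, T1, h4⟩ := hT4
  obtain ⟨T2, hT2, hcle⟩ := Adm.c_le (4096 * 40)
  obtain ⟨T3, hT3⟩ := eventually_atTop.mp ((tendsto_rpow_atTop (show (0:ℝ) < 2047 / 2048 by norm_num)).eventually_ge_atTop 2)
  refine ⟨max c1 (max 3 (1 / δ)), max T1 (max T2 T3), fun T c m v hT hA hv G hG hyp => ?_⟩
  have t1 : T1 ≤ T := (le_max_left _ _).trans hT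
  have t2 : T2 ≤ T := (le_max_left _ _).trans ((le_max_right _ _).trans hT)
  have t3 : T3 ≤ T := (le_max_right _ _).trans ((le_max_right _ _).trans hT)
  have hT1 : 1 ≤ T := by linarith
  have hT0 : 0 < T := by linarith
  have hA1 : Adm c1 T c m := hA.mono (le_max_left _ _)
  have hA3 : Adm 3 T c m := hA.mono ((le_max_left _ _).trans (le_max_right _ _))
  have hAδ : Adm (1 / δ) T c m := hA.mono ((le_max_right _ _).trans (le_max_right _ _))
  have hc3 : 3 ≤ c := hA.1
  have hc0 : 0 < c := by linarith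
  have hm1 : 1 ≤ m := hA.2.1
  have hm0 : 0 < m := by linarith
  have hlc := hA.one_le_log
  have hll1 : 1 ≤ ll c m := by
    refine le_trans ?_ (hA3.log_le_ll (by norm_num))
    have h3 : Real.exp 1 ≤ 3 := by linarith [Real.exp_one_lt_d9]
    have := Real.log_le_log (Real.exp_pos 1) h3
    rwa [Real.log_exp] at this
  have hll0 : 0 < ll c m := by linarith
  have hllc := hA.ll_le
  have hpi := Real.pi_pos
  have hpi3 := Real.pi_gt_three
  have hpi4 := Real.pi_lt_d2
  have hπ2 : Real.pi ^ 2 ≤ 10 := by nlinarith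
  have hπ9 : 9 ≤ Real.pi ^ 2 := by nlinarith
  have hK0 : 0 < K0 c m := by unfold Pool.Agent.Helper69.UW.K0; positivity
  -- `K0 ≤ 5 m`
  have hK5 : K0 c m ≤ 5 * m := by
    unfold Pool.Agent.Helper69.UW.K0
    rw [div_le_iff₀ (by positivity)]
    have : 5 * m * 2 ≤ 5 * m * (2 * ll c m) := by nlinarith
    nlinarith
  -- `K0 ≥ 4 log c/δ`
  have hKl : 4 / δ * Real.log c ≤ K0 c m := by
    unfold Pool.Agent.Helper69.UW.K0
    rw [le_div_iff₀ (by positivity)]
    have h1 : 1 / δ * Real.log c ^ 2 ≤ m := hAδ.2.2.1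
    have h2 : 4 / δ * Real.log c * (2 * ll c m) ≤ 4 / δ * Real.log c * (2 * Real.log c) := by gcongr
    have h3 : 4 / δ * Real.log c * (2 * Real.log c) = 8 * (1 / δ * Real.log c ^ 2) := by ring
    nlinarith
  have hmc : 3 * m ≤ c := hA3.2.2.2.1
  have hcT : 4096 * 40 * c ≤ Real.log T := hcle _ T c m t2 hA
  have hW : 0 < WW T := by unfold WW; positivity
  set Λ := Real.exp ((1 + 100 * δ) * K0 c m) with hΛ
  have hΛ0 : 0 < Λ := Real.exp_pos _
  -- each centre
  have hmu : ∀ τ, 5 / 4 * T ≤ τ → τ ≤ 7 / 4 * T → ENNReal.ofReal (1 / (2 * c * Λ) / 2) ≤ mu (WW T) τ G := by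
    intro τ hτ1 hτ2
    obtain ⟨s, hs, hw⟩ := hyp τ hτ1 hτ2
    have hS : MeasurableSet {t : ℝ | t + s ∈ G} := by
      have : Measurable fun t : ℝ => t + s := by fun_prop
      exact this hG
    have i4 := mu_ge hT1 hc3 hΛ0 hS (h4 T c m v t1 hA1 hv τ) hw
    have hfin : mu (WW T) τ {t : ℝ | t + s ∈ G} ≠ ⊤ := by
      have := mu_prob hW τ
      exact measure_ne_top _ _
    have i5 : ENNReal.ofReal (1 / (2 * c * Λ)) ≤ mu (WW T) τ {t : ℝ | t + s ∈ G} := by
      rw [ENNReal.ofReal_le_iff_le_toReal hfin]; exact i4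
    have hs2 : 2 * s ^ 2 ≤ WW T ^ 2 := by
      have h5 : s ^ 2 ≤ T := by
        rw [← sq_abs]
        calc |s| ^ 2 ≤ √T ^ 2 := by gcongr
          _ = T := Real.sq_sqrt hT0.le
      have h6 : WW T ^ 2 = T ^ (2047 / 2048 : ℝ) * T := by
        unfold WW
        rw [← Real.rpow_natCast, ← Real.rpow_mul hT0.le, ← Real.rpow_add_one hT0.ne']
        congr 1
        norm_num
      rw [h6]
      calc 2 * s ^ 2 ≤ 2 * T := by linarith
        _ ≤ _ := mul_le_mul_of_nonneg_right (hT3 T t3) hT0.le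
    have i6 := i5.trans (mu_shift (τ := τ) hW hs2 hG)
    have i7 : ENNReal.ofReal (1 / (2 * c * Λ) / 2) = ENNReal.ofReal (1 / (2 * c * Λ)) / 2 := by
      rw [ENNReal.ofReal_div_of_pos (by norm_num)]; simp
    rw [i7]
    apply ENNReal.div_le_of_le_mul'
    exact i6
  have hvol := vol_ge hT0 hW hG hmu
  -- numbers
  have hlog16 : Real.log 16 ≤ 3 := by
    have h1 : Real.log 16 = 4 * Real.log 2 := by
      rw [show (16:ℝ) = 2 ^ 4 by norm_num, Real.log_pow]
      norm_num
    have h2 := Real.log_two_lt_d9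
    linarith
  have hlog32 : Real.log 32 ≤ 4 := by
    have h1 : Real.log 32 = 5 * Real.log 2 := by
      rw [show (32:ℝ) = 2 ^ 5 by norm_num, Real.log_pow]
      norm_num
    have h2 := Real.log_two_lt_d9
    linarith
  have hx : Real.exp (-(10 * δ * K0 c m)) ≤ 1 / (16 * c) := by
    have h1 : 4 * Real.log c ≤ δ * K0 c m := by
      have h2 := mul_le_mul_of_nonneg_left hKl hδ.le
      have h3 : δ * (4 / δ * Real.log c) = 4 * Real.log c := by field_simp
      linarith
    have h4 : Real.log (16 * c) ≤ 10 * δ * K0 c m := by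
      rw [Real.log_mul (by norm_num) hc0.ne']
      linarith
    have h5 : 1 / (16 * c) = Real.exp (-Real.log (16 * c)) := by
      rw [Real.exp_neg, Real.exp_log (by positivity), one_div]
    rw [h5]
    exact Real.exp_le_exp.mpr (by linarith)
  have hz : 2 * WW T ≤ T / (16 * c * Λ) := by
    have e5 : WW T = T ^ (-(1 / 4096) : ℝ) * T := by
      unfold WW
      rw [← Real.rpow_add_one hT0.ne']
      congr 1
      norm_num
    have e6 : T ^ (-(1 / 4096) : ℝ) ≤ Real.exp (-(Real.log 32 + Real.log c + (1 + 100 * δ) * K0 c m)) := by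
      rw [Real.rpow_def_of_pos hT0]
      apply Real.exp_le_exp.mpr
      have h1 : Real.log c ≤ c := (Real.log_le_sub_one_of_pos hc0).trans (by linarith)
      have h2 : (1 + 100 * δ) * K0 c m ≤ 5 * (5 * m) := by
        have : 1 + 100 * δ ≤ 5 := by linarith
        gcongr
      nlinarith
    have e7 : Real.exp (-(Real.log 32 + Real.log c + (1 + 100 * δ) * K0 c m)) = 1 / (32 * c * Λ) := by
      rw [Real.exp_neg, Real.exp_add, Real.exp_add, Real.exp_log (by norm_num), Real.exp_log hc0, one_div, ← hΛ]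
    rw [e7] at e6
    rw [e5]
    have e8 := mul_le_mul_of_nonneg_right e6 hT0.le
    have e9 : T / (16 * c * Λ) = 2 * (1 / (32 * c * Λ) * T) := by
      field_simp
      ring
    rw [e9]
    linarith
  have hfinal : Real.exp (-((1 + 110 * δ) * K0 c m)) * T + 2 * WW T ≤ 1 / (2 * c * Λ) / 2 * (T / 2) := by
    have e8 : Real.exp (-((1 + 110 * δ) * K0 c m)) = Real.exp (-(10 * δ * K0 c m)) / Λ := by
      rw [hΛ, ← Real.exp_sub]; congr 1; ring
    rw [e8]
    have e9 : Real.exp (-(10 * δ * K0 c m)) / Λ * T ≤ 1 / (16 * c) / Λ * T := by gcongr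
    have e10 : 1 / (16 * c) / Λ * T = T / (16 * c * Λ) := by field_simp
    have e11 : 1 / (2 * c * Λ) / 2 * (T / 2) = 2 * (T / (16 * c * Λ)) := by
      field_simp
      ring
    rw [e11]
    linarith
  have h10 : ENNReal.ofReal (Real.exp (-((1 + 110 * δ) * K0 c m)) * T) + ENNReal.ofReal (2 * WW T) ≤
      volume (G ∩ Icc T (2 * T)) + ENNReal.ofReal (2 * WW T) := by
    rw [← ENNReal.ofReal_add (by positivity) (by positivity)]
    exact (ENNReal.ofReal_le_ofReal hfinal).trans hvol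
  exact (ENNReal.add_le_add_iff_right ENNReal.ofReal_ne_top).mp h10

end Pool.Agent.Helper94.UW
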